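import Pool.Agent.P.MP_7b8a73_gt.Stat

/-!
Auxiliary facts on locally compact, locally connected, hereditarily normal spaces.
-/

set_option autoImplicit false

namespace Pool.Agent.P.MP_7b8a73_gt

open Set Topology

universe u

variable {X : Type u} [TopologicalSpace X]

/-- In a locally connected hereditarily normal space only countably many pairwise disjoint
connected open sets cross from a closed set `Q` to the outside of a compact neighbourhood
of `Q`. -/
theorem countable_crossing [T2Space X] [LocallyConnectedSpace X] [CompletelyNormalSpace X]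
    {I : Type} (S : Set I) (C : I → Set X) (hCo : ∀ d, IsOpen (C d))
    (hCc : ∀ d, IsPreconnected (C d))
    (hdisj : ∀ b ∈ S, ∀ d ∈ S, ∀ q, q ∈ C b → q ∈ C d → b = d)
    (Q K : Set X) (hQ : IsClosed Q) (hK : IsCompact K) (hQK : Q ⊆ interior K)
    (h1 : ∀ d ∈ S, (C d ∩ Q).Nonempty) (h2 : ∀ d ∈ S, ¬ C d ⊆ K) : S.Countable := by
  obtain ⟨φ, hφ0, hφ1, -⟩ := exists_continuous_zero_one_of_isClosed hQ
    (isOpen_interior (s := K)).isClosed_compl (disjoint_compl_right_iff_subset.2 hQK)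
  let t : ℕ → ℝ := fun n => 1 / 2 + 1 / ((n : ℝ) + 3)
  have ht1 : ∀ n, 1 / 2 < t n := fun n => by
    have : (0 : ℝ) < 1 / ((n : ℝ) + 3) := by positivity
    simp only [t]; linarith
  have ht2 : ∀ n, t n < 1 := fun n => by
    have h3 : (1 : ℝ) / ((n : ℝ) + 3) ≤ 1 / 3 :=
      one_div_le_one_div_of_le (by norm_num) (by have := Nat.cast_nonneg (α := ℝ) n; linarith)
    simp only [t]; linarith
  have ht3 : ∀ s : ℝ, 1 / 2 < s → ∃ n, t n ≤ s := by
    intro s hs
    obtain ⟨n, hn⟩ := exists_nat_one_div_lt (sub_pos.2 hs)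
    refine ⟨n, ?_⟩
    have h3 : (1 : ℝ) / ((n : ℝ) + 3) ≤ 1 / ((n : ℝ) + 1) :=
      one_div_le_one_div_of_le (by positivity) (by linarith)
    simp only [t]; linarith
  -- the points at level one half
  have hx : ∀ d ∈ S, ∃ x ∈ C d, φ x = 1 / 2 ∧ x ∈ closure {y | 1 / 2 < φ y} := by
    intro d hd
    by_contra hcon
    push Not at hcon
    obtain ⟨q, hq1, hq2⟩ := h1 d hd
    obtain ⟨p, hp1, hp2⟩ := not_subset.1 (h2 d hd)
    have hp3 : φ p = 1 := hφ1 (fun h => hp2 (interior_subset h))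
    have hsub : C d ⊆ {y | 1 / 2 < φ y} := by
      refine (hCc d).subset_of_closure_inter_subset (isOpen_lt continuous_const φ.continuous)
        ⟨p, hp1, by simp only [mem_ofPred_eq, hp3]; norm_num⟩ ?_
      rintro y ⟨hy1, hy2⟩
      have hle : 1 / 2 ≤ φ y :=
        closure_minimal (s := {y | 1 / 2 < φ y}) (t := {y | 1 / 2 ≤ φ y})
          (fun z (hz : 1 / 2 < φ z) => show 1 / 2 ≤ φ z from le_of_lt hz) (isClosed_le continuous_const φ.continuous) hy1
      rcases hle.lt_or_eq with h | h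
      · exact h
      · exact absurd hy1 (hcon y hy2 h.symm)
    have := hsub hq1
    have h0 : φ q = 0 := hφ0 hq2
    simp only [mem_ofPred_eq, h0] at this
    norm_num at this
  by_cases hS : S.Nonempty
  swap
  · rw [not_nonempty_iff_eq_empty.1 hS]; exact countable_empty
  have : Nonempty X := let ⟨d, hd⟩ := hS; let ⟨q, _⟩ := h1 d hd; ⟨q⟩
  choose! x hx1 hx2 hx3 using hx
  let F : ℕ → Set X := fun n => {p | φ p = t n ∧ ∀ O, IsOpen O → p ∈ O →
    ¬ {d | d ∈ S ∧ (O ∩ C d).Nonempty}.Countable}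
  have hsep : Disjoint (𝓝ˢ (⋃ n, F n)) (𝓝ˢ (x '' S)) := by
    apply completely_normal
    · rw [disjoint_left]
      rintro p hp ⟨d, hd, rfl⟩
      obtain ⟨q, hq1, hq2⟩ := mem_closure_iff.1 hp (C d) (hCo d) (hx1 d hd)
      obtain ⟨n, hn⟩ := mem_iUnion.1 hq2
      refine hn.2 (C d) (hCo d) hq1 ((countable_singleton d).mono ?_)
      rintro e ⟨he, r, hr1, hr2⟩
      exact hdisj e he d hd r hr2 hr1
    · rw [disjoint_left]
      intro p hp hp2
      obtain ⟨n, hn⟩ := mem_iUnion.1 hp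
      have : p ∈ {y | φ y = 1 / 2} := by
        refine closure_minimal ?_ (isClosed_eq φ.continuous continuous_const) hp2
        rintro _ ⟨d, hd, rfl⟩
        exact hx2 d hd
      have h3 : φ p = 1 / 2 := this
      have := ht1 n
      rw [← hn.1, h3] at this
      exact lt_irrefl _ this
  obtain ⟨G, H, hG, hH, hFG, hxH, hGH⟩ := separatedNhds_iff_disjoint.2 hsep
  have hbad : ∀ n, {d | d ∈ S ∧ ∃ y ∈ C d, φ y = t n ∧ y ∉ G}.Countable := by
    intro n
    have hL : IsCompact ((K ∩ {y | φ y = t n}) \ G) :=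
      (hK.inter_right (isClosed_eq φ.continuous continuous_const)).diff hG
    have hO : ∀ p ∈ (K ∩ {y | φ y = t n}) \ G, ∃ O, IsOpen O ∧ p ∈ O ∧
        {d | d ∈ S ∧ (O ∩ C d).Nonempty}.Countable := by
      intro p hp
      by_contra hcon
      push Not at hcon
      exact hp.2 (hFG (mem_iUnion.2 ⟨n, hp.1.2, hcon⟩))
    choose! O hO1 hO2 hO3 using hO
    obtain ⟨T, hT1, hT2⟩ := hL.elim_nhds_subcover O (fun p hp => (hO1 p hp).mem_nhds (hO2 p hp))
    refine (T.countable_toSet.biUnion fun p hp => hO3 p (hT1 p hp)).mono ?_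
    rintro d ⟨hd, y, hy1, hy2, hy3⟩
    have hyK : y ∈ K := by
      by_contra h
      have h4 : φ y = 1 := hφ1 (fun h' => h (interior_subset h'))
      have := ht2 n
      rw [← hy2, h4] at this
      exact lt_irrefl _ this
    obtain ⟨p, hp, hyp⟩ := mem_iUnion₂.1 (hT2 ⟨⟨hyK, hy2⟩, hy3⟩)
    exact mem_iUnion₂.2 ⟨p, hp, hd, y, hyp, hy1⟩
  refine (countable_iUnion hbad).mono fun d hd => ?_
  obtain ⟨J, hJs, hJo, hxJ, hJc⟩ := locallyConnectedSpace_iff_subsets_isOpen_isConnected.1
    inferInstance (x d) (H ∩ C d) ((hH.inter (hCo d)).mem_nhds ⟨hxH ⟨d, hd, rfl⟩, hx1 d hd⟩)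
  obtain ⟨y, hy1, hy2⟩ := mem_closure_iff.1 (hx3 d hd) J hJo hxJ
  obtain ⟨n, hn⟩ := ht3 (φ y) hy2
  obtain ⟨w, hw1, hw2⟩ := hJc.isPreconnected.intermediate_value hxJ hy1
    φ.continuous.continuousOn (show t n ∈ Icc (φ (x d)) (φ y) from
      ⟨by rw [hx2 d hd]; exact (ht1 n).le, hn⟩)
  exact mem_iUnion.2 ⟨n, hd, w, (hJs hw1).2, hw2, fun h => disjoint_left.1 hGH h (hJs hw1).1⟩

/-- An open sigma-compact set has a cofinal sequence of compact subsets. -/
theorem exists_compact_seq [LocallyCompactSpace X] (W : Set X) (hWo : IsOpen W)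
    (hW : IsSigmaCompact W) :
    ∃ Q : ℕ → Set X, (∀ j, IsCompact (Q j) ∧ Q j ⊆ W) ∧
      ∀ T, IsCompact T → T ⊆ W → ∃ j, T ⊆ Q j := by
  obtain ⟨K, hK1, hK2⟩ := hW
  choose L hL1 hL2 hL3 using fun n => exists_compact_between (hK1 n) hWo
    (hK2 ▸ subset_iUnion K n)
  refine ⟨fun j => ⋃ n ∈ Finset.range j, L n, fun j => ⟨?_, ?_⟩, fun T hT hTW => ?_⟩
  · exact (Finset.range j).isCompact_biUnion fun n _ => hL1 n
  · exact iUnion₂_subset fun n _ => hL3 n
  · obtain ⟨A, hA⟩ := hT.elim_finite_subcover (fun n => interior (L n))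
      (fun _ => isOpen_interior) (by
        intro z hz
        have := hTW hz
        rw [← hK2] at this
        obtain ⟨n, hn⟩ := mem_iUnion.1 this
        exact mem_iUnion.2 ⟨n, hL2 n hn⟩)
    refine ⟨A.sup id + 1, fun z hz => ?_⟩
    obtain ⟨n, hn, hz'⟩ := mem_iUnion₂.1 (hA hz)
    exact mem_iUnion₂.2 ⟨n, Finset.mem_range.2 (Nat.lt_succ_of_le (Finset.le_sup (f := id) hn)),
      interior_subset hz'⟩

/-- A compact set lies in an open sigma-compact set. -/
theorem exists_open_sigmaCompact [LocallyCompactSpace X] (K : Set X) (hK : IsCompact K) :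
    ∃ W, IsOpen W ∧ IsSigmaCompact W ∧ K ⊆ W := by
  choose f hf1 hf2 using fun L : {L : Set X // IsCompact L} => exists_compact_superset L.2
  let g : {L : Set X // IsCompact L} → {L : Set X // IsCompact L} := fun L => ⟨f L, hf1 L⟩
  let s : ℕ → {L : Set X // IsCompact L} := fun n => g^[n] ⟨K, hK⟩
  have hs : ∀ n, (s n).1 ⊆ interior (s (n + 1)).1 := fun n => by
    have : s (n + 1) = g (s n) := Function.iterate_succ_apply' g n _
    rw [this]
    exact hf2 (s n)
  refine ⟨⋃ n, (s n).1, ?_, isSigmaCompact_iUnion_of_isCompact _ fun n => (s n).2,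
    subset_iUnion (fun n => (s n).1) 0⟩
  rw [isOpen_iff_mem_nhds]
  intro z hz
  obtain ⟨n, hn⟩ := mem_iUnion.1 hz
  exact Filter.mem_of_superset (isOpen_interior.mem_nhds (hs n hn))
    (interior_subset.trans (subset_iUnion (fun n => (s n).1) (n + 1)))

/-- A component of `O ∩ U` inside `B` whose closure meets the frontier of `U` inside `B`. -/
theorem exists_component' [LocallyConnectedSpace X] (O U B : Set X) (hO : IsOpen O)
    (hU : IsOpen U) (hB : IsOpen B) (x : X) (hxO : x ∈ O) (hxB : x ∈ B) (hxU : x ∈ frontier U)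
    (hfr : ∀ p ∈ frontier B, p ∈ U → p ∉ O) :
    ∃ z ∈ O ∩ U, connectedComponentIn (O ∩ U) z ⊆ B ∧
      ∃ p ∈ closure (connectedComponentIn (O ∩ U) z), p ∈ frontier U ∧ p ∈ B := by
  obtain ⟨W, hWs, hWo, hxW, hWc⟩ := locallyConnectedSpace_iff_subsets_isOpen_isConnected.1
    inferInstance x (O ∩ B) ((hO.inter hB).mem_nhds ⟨hxO, hxB⟩)
  obtain ⟨z, hzW, hzU⟩ := mem_closure_iff.1 (frontier_subset_closure hxU) W hWo hxW
  have hz : z ∈ O ∩ U := ⟨(hWs hzW).1, hzU⟩
  have hOU : IsOpen (O ∩ U) := hO.inter hU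
  set C := connectedComponentIn (O ∩ U) z with hC
  have hCo : IsOpen C := hOU.connectedComponentIn
  have hzC : z ∈ C := mem_connectedComponentIn hz
  have hCs : C ⊆ O ∩ U := connectedComponentIn_subset _ _
  have hxnU : x ∉ U := by
    rw [hU.frontier_eq] at hxU
    exact hxU.2
  refine ⟨z, hz, ?_, ?_⟩
  · refine isPreconnected_connectedComponentIn.subset_of_closure_inter_subset hB
      ⟨z, hzC, (hWs hzW).2⟩ ?_
    rintro p ⟨hp1, hp2⟩
    by_contra hpB
    refine hfr p ?_ (hCs hp2).2 (hCs hp2).1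
    rw [hB.frontier_eq]
    exact ⟨hp1, hpB⟩
  · by_contra hcon
    push Not at hcon
    have hWC : W ⊆ C := by
      refine hWc.isPreconnected.subset_of_closure_inter_subset hCo ⟨z, hzW, hzC⟩ ?_
      rintro p ⟨hp1, hp2⟩
      have hpU : p ∈ U := by
        by_contra hpU
        refine hcon p hp1 ?_ (hWs hp2).2
        rw [hU.frontier_eq]
        exact ⟨closure_mono (hCs.trans inter_subset_right) hp1, hpU⟩
      have hp : p ∈ O ∩ U := ⟨(hWs hp2).1, hpU⟩
      obtain ⟨q, hq1, hq2⟩ := mem_closure_iff.1 hp1 (connectedComponentIn (O ∩ U) p)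
        hOU.connectedComponentIn (mem_connectedComponentIn hp)
      have e1 := connectedComponentIn_eq hq1
      have e2 := connectedComponentIn_eq hq2
      rw [hC, e2, ← e1]
      exact mem_connectedComponentIn hp
    exact hxnU (hCs (hWC hxW)).2

/-- The decomposition of a locally connected space into its components. -/
theorem exists_homeomorph_components [LocallyConnectedSpace X] :
    Nonempty ((Σ c : ConnectedComponents X, {x : X // ConnectedComponents.mk x = c}) ≃ₜ X) := by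
  have hopen : ∀ c, IsOpen {x : X | ConnectedComponents.mk x = c} := by
    intro c
    obtain ⟨x, rfl⟩ := ConnectedComponents.surjective_coe c
    have : {y : X | ConnectedComponents.mk y = ConnectedComponents.mk x} =
        connectedComponent x := by
      ext y
      exact ConnectedComponents.coe_eq_coe'
    rw [this]
    exact isOpen_connectedComponent
  exact ⟨(Equiv.sigmaFiberEquiv ConnectedComponents.mk).toHomeomorphOfContinuousOpen
    (continuous_sigma fun c => continuous_subtype_val)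
    (isOpenMap_sigma.2 fun c => (hopen c).isOpenMap_subtype_val)⟩

/-- A topological sum of paracompact spaces is paracompact. -/
theorem paracompact_sigma {ι : Type u} (E : ι → Type u) [∀ c, TopologicalSpace (E c)]
    [∀ c, ParacompactSpace (E c)] : ParacompactSpace (Σ c, E c) := by
  refine ⟨fun α s ho hc => ?_⟩
  choose v hv1 hv2 hv3 hv4 using fun c => precise_refinement (fun a => Sigma.mk c ⁻¹' s a)
    (fun a => (ho a).preimage continuous_sigmaMk) (by rw [← preimage_iUnion, hc, preimage_univ])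
  refine ⟨ι × α, fun p => Sigma.mk p.1 '' v p.1 p.2, fun p => isOpenMap_sigmaMk _ (hv1 _ _), ?_,
    ?_, fun p => ⟨p.2, image_subset_iff.2 (hv4 _ _)⟩⟩
  · refine eq_univ_of_forall ?_
    rintro ⟨c, y⟩
    obtain ⟨a, ha⟩ := iUnion_eq_univ_iff.1 (hv2 c) y
    exact mem_iUnion.2 ⟨(c, a), y, ha, rfl⟩
  · rintro ⟨c, y⟩
    obtain ⟨N, hN, hfin⟩ := hv3 c y
    refine ⟨Sigma.mk c '' N, isOpenMap_sigmaMk.image_mem_nhds hN,
      (hfin.image fun a => (c, a)).subset ?_⟩
    rintro ⟨c', a⟩ ⟨z, ⟨w, hw, rfl⟩, w', hw', e⟩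
    obtain ⟨rfl, e'⟩ := Sigma.mk.inj e
    obtain rfl := eq_of_heq e'
    exact ⟨a, ⟨w', hw, hw'⟩, rfl⟩

end Pool.Agent.P.MP_7b8a73_gt
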