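import Mathlib

/-!
Weak covering properties.
-/

set_option autoImplicit false

namespace Pool.Agent.P.MP_7b8a73_gt

/-- Weakly theta-refinable: every open cover has a sequence of open families (not necessarily
covers) refining it such that each point lies in at least one and only finitely many members of
one of the families. -/
def WeaklyThetaRefinable (X : Type*) [TopologicalSpace X] : Prop :=
  ∀ 𝒰 : Set (Set X), (∀ u ∈ 𝒰, IsOpen u) → ⋃₀ 𝒰 = Set.univ →
    ∃ G : ℕ → Set (Set X), (∀ k, ∀ s ∈ G k, IsOpen s ∧ ∃ u ∈ 𝒰, s ⊆ u) ∧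
      ∀ x : X, ∃ k, {s ∈ G k | x ∈ s}.Nonempty ∧ {s ∈ G k | x ∈ s}.Finite

/-- Weakly delta-theta-refinable: as weakly theta-refinable, with countably many in place of
finitely many. -/
def WeaklyDeltaThetaRefinable (X : Type*) [TopologicalSpace X] : Prop :=
  ∀ 𝒰 : Set (Set X), (∀ u ∈ 𝒰, IsOpen u) → ⋃₀ 𝒰 = Set.univ →
    ∃ G : ℕ → Set (Set X), (∀ k, ∀ s ∈ G k, IsOpen s ∧ ∃ u ∈ 𝒰, s ⊆ u) ∧
      ∀ x : X, ∃ k, {s ∈ G k | x ∈ s}.Nonempty ∧ {s ∈ G k | x ∈ s}.Countable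

end Pool.Agent.P.MP_7b8a73_gt
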