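import Pool.Agent.P.MP_7b8a73_gt.HCross
import Pool.Agent.P.MP_7b8a73_gt.HDefs

/-!
Paracompactness and metrizability of locally compact, locally connected, hereditarily normal
spaces with weak covering properties.
-/

set_option autoImplicit false

namespace Pool.Agent.P.MP_7b8a73_gt

open Set Topology

universe u

variable {X : Type u} [TopologicalSpace X]

/-- There is no strictly growing chain of length omega one. -/
theorem no_chain' [T2Space X] [LocallyCompactSpace X] [LocallyConnectedSpace X]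
    [CompletelyNormalSpace X] {I : Type} [LinearOrder I] [WellFoundedLT I] (hI : OmegaOne I)
    (G : ℕ → Set (Set X)) (U V W s : I → Set X) (W0 : Set X)
    (hU : ∀ d, U d = W0 ∪ ⋃ (b : I) (_ : b < d), W b)
    (hUo : ∀ d, IsOpen (U d)) (hUl : ∀ d, IsSigmaCompact (U d))
    (hWo : ∀ d, IsOpen (W d)) (hWl : ∀ d, IsSigmaCompact (W d))
    (x : I → X) (k : I → ℕ) (hVo : ∀ d, IsOpen (V d)) (hso : ∀ d, IsOpen (s d))
    (hsG : ∀ d, s d ∈ G (k d))
    (hxf : ∀ d, x d ∈ frontier (U d)) (hxV : ∀ d, x d ∈ V d) (hVs : ∀ d, V d ⊆ s d)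
    (hsW : ∀ d, s d ⊆ W d)
    (hD : ∀ d, {t ∈ G (k d) | (t ∩ V d ∩ frontier (U d)).Nonempty}.Countable) : False := by
  have hfn : ∀ d, ∀ y ∈ frontier (U d), y ∉ U d := by
    intro d y hy
    rw [(hUo d).frontier_eq] at hy
    exact hy.2
  have hxn : ∀ d, x d ∉ U d := fun d => hfn d _ (hxf d)
  have hWU : ∀ b d, b < d → W b ⊆ U d := by
    intro b d hbd z hz
    rw [hU d]
    exact Or.inr (mem_iUnion₂.2 ⟨b, hbd, hz⟩)
  have hUU : ∀ b d, b ≤ d → U b ⊆ U d := by
    intro b d hbd z hz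
    rw [hU b] at hz
    rw [hU d]
    rcases hz with hz | hz
    · exact Or.inl hz
    · obtain ⟨c, hc, hz⟩ := mem_iUnion₂.1 hz
      exact Or.inr (mem_iUnion₂.2 ⟨c, hc.trans_le hbd, hz⟩)
  have hcover : ∀ d, (∃ b, b < d) → ∀ z ∈ U d, ∃ c, c < d ∧ z ∈ U c ∪ W c := by
    rintro d ⟨b, hb⟩ z hz
    rw [hU d] at hz
    rcases hz with hz | hz
    · exact ⟨b, hb, Or.inl (by rw [hU b]; exact Or.inl hz)⟩
    · obtain ⟨c, hc, hz⟩ := mem_iUnion₂.1 hz
      exact ⟨c, hc, Or.inr hz⟩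
  have hYU : ∀ c d, c < d → U c ∪ W c ⊆ U d := fun c d h =>
    union_subset (hUU _ _ h.le) (hWU _ _ h)
  have hYl : ∀ c, IsSigmaCompact (U c ∪ W c) := by
    intro c
    rw [union_eq_iUnion]
    exact isSigmaCompact_iUnion _ fun b => by cases b <;> simp [hUl, hWl]
  have hsinj : Function.Injective s := by
    have key : ∀ b d, b < d → s b ≠ s d := fun b d h e =>
      hxn d (hWU b d h (hsW b (e ▸ hVs d (hxV d))))
    intro b d e
    rcases lt_trichotomy b d with h | h | h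
    · exact absurd e (key b d h)
    · exact h
    · exact absurd e.symm (key d b h)
  choose g hg using fun e => hI.bdd _ ((hD e).preimage_of_injOn hsinj.injOn)
  obtain ⟨k0, hS1⟩ := ((stat_univ hI).closed g).pigeon hI (fun d j => k d = j)
    (fun d _ => ⟨k d, rfl⟩)
  set S1 := {d | d ∈ {d | d ∈ (univ : Set I) ∧ (∃ b, b < d) ∧ ∀ b, b < d → g b < d} ∧ k d = k0}
    with hS1def
  have hinj : ∀ d ∈ S1, ∀ e ∈ S1, ∀ y, y ∈ V e → y ∈ frontier (U e) → y ∈ s d → d = e := by
    intro d hd e he y h1 h2 h3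
    rcases lt_trichotomy d e with h | h | h
    · exact absurd (hWU d e h (hsW d h3)) (hfn e y h2)
    · exact h
    · exfalso
      refine lt_asymm (hd.1.2.2 e h) (hg e d ⟨?_, y, ⟨h3, h1⟩, h2⟩)
      rw [he.2, ← hd.2]
      exact hsG d
  clear_value S1
  choose K hK1 hK2 hK3 using fun d => exists_compact_subset (hVo d) (hxV d)
  let B : I → Set X := fun d => interior (K d)
  have hBo : ∀ d, IsOpen (B d) := fun d => isOpen_interior
  have hBcl : ∀ d, closure (B d) ⊆ K d := fun d =>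
    closure_minimal interior_subset (hK1 d).isClosed
  have hfrK : ∀ d, frontier (B d) ⊆ K d := fun d => frontier_subset_closure.trans (hBcl d)
  have hxfr : ∀ d, x d ∉ frontier (B d) := by
    intro d h
    rw [(hBo d).frontier_eq] at h
    exact h.2 (hK2 d)
  let R : I → Set X := fun d => frontier (B d) ∩ frontier (U d)
  have hRc : ∀ d, IsClosed (R d) := fun d => isClosed_frontier.inter isClosed_frontier
  have hRV : ∀ d, R d ⊆ V d := fun d p hp => hK3 d (hfrK d hp.1)
  have hsep : Disjoint (𝓝ˢ (x '' S1)) (𝓝ˢ (⋃ d ∈ S1, R d)) := by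
    apply completely_normal
    · rw [disjoint_left]
      intro p hp hp2
      obtain ⟨d, hd, hpd⟩ := mem_iUnion₂.1 hp2
      have hpx : p ≠ x d := fun h => hxfr d (h ▸ hpd.1)
      obtain ⟨q, ⟨hq1, hq2⟩, e, he, rfl⟩ := mem_closure_iff.1 hp (s d ∩ {x d}ᶜ)
        ((hso _).inter isOpen_compl_singleton) ⟨hVs d (hRV d hpd), hpx⟩
      obtain rfl := hinj d hd e he _ (hxV e) (hxf e) hq1
      exact hq2 rfl
    · rw [disjoint_left]
      rintro p ⟨d, hd, rfl⟩ hp
      obtain ⟨q, ⟨hq1, hq2⟩, hq3⟩ := mem_closure_iff.1 hp (s d ∩ (R d)ᶜ)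
        ((hso _).inter (hRc d).isOpen_compl) ⟨hVs d (hxV d), fun h => hxfr d h.1⟩
      obtain ⟨e, he, hqe⟩ := mem_iUnion₂.1 hq3
      obtain rfl := hinj d hd e he _ (hRV e hqe) hqe.2 hq1
      exact hq2 hqe
  obtain ⟨O1, G1, hO1, hG, hxO1, hRG, hOG⟩ := separatedNhds_iff_disjoint.2 hsep
  let T : I → Set X := fun d => (frontier (B d) ∩ closure (U d)) \ G1
  have hTc : ∀ d, IsCompact (T d) := fun d =>
    (((hK1 d).of_isClosed_subset isClosed_frontier (hfrK d)).inter_right isClosed_closure).diff hG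
  have hTU : ∀ d ∈ S1, T d ⊆ U d := by
    rintro d hd p ⟨⟨hp1, hp2⟩, hp3⟩
    by_contra hpU
    refine hp3 (hRG (mem_iUnion₂.2 ⟨d, hd, hp1, ?_⟩))
    rw [(hUo d).frontier_eq]
    exact ⟨hp2, hpU⟩
  obtain ⟨c, hS2⟩ := hS1.fodor hI (fun d c => T d ⊆ U c ∪ W c) (by
    intro d hd hne
    obtain ⟨b0, hb0⟩ := hne
    have : Nonempty {c // c < d} := ⟨⟨b0, hb0⟩⟩
    obtain ⟨c, hc⟩ := (hTc d).elim_directed_cover (fun c : {c // c < d} => U c.1 ∪ W c.1)
      (fun c => (hUo _).union (hWo _))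
      (by
        intro z hz
        obtain ⟨c, hc, hz'⟩ := hcover d ⟨b0, hb0⟩ z (hTU d hd hz)
        exact mem_iUnion.2 ⟨⟨c, hc⟩, hz'⟩)
      (by
        refine Monotone.directed_le (f := fun c : {c // c < d} => U c.1 ∪ W c.1) ?_
        intro c e hce
        rcases (show c.1 ≤ e.1 from hce).lt_or_eq with h | h
        · exact (hYU _ _ h).trans subset_union_left
        · simp only [h]
          exact le_rfl)
    exact ⟨c.1, c.2, hc⟩)
  obtain ⟨Q, hQ, hQT⟩ := exists_compact_seq (U c ∪ W c) ((hUo c).union (hWo c)) (hYl c)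
  obtain ⟨j, hS3⟩ := hS2.pigeon hI (fun d j => T d ⊆ Q j)
    (fun d hd => hQT (T d) (hTc d) hd.2.2)
  set S3 := {d | d ∈ {d | d ∈ S1 ∧ c < d ∧ T d ⊆ U c ∪ W c} ∧ T d ⊆ Q j} with hS3def
  have hS31 : ∀ d ∈ S3, d ∈ S1 := fun d hd => hd.1.1
  let O : Set X := O1 \ Q j
  have hO : IsOpen O := hO1.sdiff (hQ j).1.isClosed
  have hcomp : ∀ d ∈ S3, ∃ z ∈ O ∩ U d, connectedComponentIn (O ∩ U d) z ⊆ B d ∧
      ∃ p ∈ closure (connectedComponentIn (O ∩ U d) z), p ∈ frontier (U d) ∧ p ∈ B d := by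
    intro d hd
    refine exists_component' O (U d) (B d) hO (hUo d) (hBo d) (x d) ?_ (hK2 d) (hxf d) ?_
    · exact ⟨hxO1 ⟨d, hS31 d hd, rfl⟩, fun h => hxn d (hYU _ _ hd.1.2.1 ((hQ j).2 h))⟩
    · intro p hp hpU hpO
      by_cases hpG : p ∈ G1
      · exact disjoint_left.1 hOG hpO.1 hpG
      · exact hpO.2 (hd.2 ⟨⟨hp, subset_closure hpU⟩, hpG⟩)
  clear_value S3
  have : Nonempty X := ⟨x c⟩
  choose! z hz hzB p hp1 hp2 hp3 using hcomp
  let C : I → Set X := fun d => connectedComponentIn (O ∩ U d) (z d)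
  have hCo : ∀ d, IsOpen (C d) := fun d => (hO.inter (hUo d)).connectedComponentIn
  have hdisj : ∀ b ∈ S3, ∀ d ∈ S3, b < d → ∀ q, q ∈ C b → q ∈ C d → False := by
    intro b hb d hd hbd q hqb hqd
    have h1 : C b ⊆ C d := by
      have h2 : C b ⊆ connectedComponentIn (O ∩ U d) q :=
        isPreconnected_connectedComponentIn.subset_connectedComponentIn hqb
          ((connectedComponentIn_subset _ _).trans
            (inter_subset_inter_right _ (hUU b d hbd.le)))
      rwa [← connectedComponentIn_eq hqd] at h2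
    have h3 : p b ∈ s d :=
      hVs d (hK3 d (hBcl d (closure_mono (h1.trans (hzB d hd)) (hp1 b hb))))
    exact hbd.ne' (hinj d (hS31 d hd) b (hS31 b hb) _
      (hK3 b (interior_subset (hp3 b hb))) (hp2 b hb) h3)
  obtain ⟨e, hS4⟩ := hS3.fodor hI (fun d c => z d ∈ U c ∪ W c)
    (fun d hd hne => hcover d hne _ (hz d hd).2)
  obtain ⟨Q', hQ', hQT'⟩ := exists_compact_seq (U e ∪ W e) ((hUo e).union (hWo e)) (hYl e)
  obtain ⟨i, hS5⟩ := hS4.pigeon hI (fun d i => z d ∈ Q' i) (fun d hd =>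
    let ⟨i, hi⟩ := hQT' {z d} isCompact_singleton (singleton_subset_iff.2 hd.2.2)
    ⟨i, hi rfl⟩)
  obtain ⟨L, hL1, hL2, hL3⟩ := exists_compact_between (hQ' i).1 ((hUo e).union (hWo e)) (hQ' i).2
  refine hS5.not_countable hI (countable_crossing _ C hCo
    (fun d => isPreconnected_connectedComponentIn) ?_ (Q' i) L (hQ' i).1.isClosed hL1 hL2 ?_ ?_)
  · intro b hb d hd q hqb hqd
    rcases lt_trichotomy b d with h | h | h
    · exact (hdisj b hb.1.1 d hd.1.1 h q hqb hqd).elim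
    · exact h
    · exact (hdisj d hd.1.1 b hb.1.1 h q hqd hqb).elim
  · intro d hd
    exact ⟨z d, mem_connectedComponentIn (hz d hd.1.1), hd.2⟩
  · intro d hd hsub
    exact hfn d _ (hp2 d hd.1.1)
      (hYU e d hd.1.2.1 (hL3 (closure_minimal hsub hL1.isClosed (hp1 d hd.1.1))))

/-- Every component is sigma-compact, given open families of relatively compact sets which are
somewhere locally countable on every nonempty closed set. -/
theorem component_sigmaCompact [T2Space X] [LocallyCompactSpace X] [LocallyConnectedSpace X]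
    [CompletelyNormalSpace X] (G : ℕ → Set (Set X))
    (hG : ∀ k, ∀ s ∈ G k, IsOpen s ∧ ∃ K, IsCompact K ∧ s ⊆ K)
    (hF : ∀ F : Set X, IsClosed F → F.Nonempty → ∃ x ∈ F, ∃ k, ∃ s ∈ G k, ∃ V, IsOpen V ∧ x ∈ V ∧
      V ⊆ s ∧ {t ∈ G k | (t ∩ V ∩ F).Nonempty}.Countable) (x0 : X) :
    IsSigmaCompact (connectedComponent x0) := by
  by_contra hcon
  obtain ⟨I, _, _, hI⟩ := exists_omegaOne
  have hstep : ∀ U : Set X, ∃ (x : X) (k : ℕ) (s V W : Set X), IsOpen W ∧ IsSigmaCompact W ∧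
      ((frontier U).Nonempty → x ∈ frontier U ∧ s ∈ G k ∧ IsOpen V ∧ x ∈ V ∧ V ⊆ s ∧ s ⊆ W ∧
        {t ∈ G k | (t ∩ V ∩ frontier U).Nonempty}.Countable) := by
    intro U
    by_cases hne : (frontier U).Nonempty
    · obtain ⟨x, hx, k, s, hs, V, h1, h2, h3, h4⟩ := hF _ isClosed_frontier hne
      obtain ⟨-, K, hK, hsK⟩ := hG k s hs
      obtain ⟨W, w1, w2, w3⟩ := exists_open_sigmaCompact K hK
      exact ⟨x, k, s, V, W, w1, w2, fun _ => ⟨hx, hs, h1, h2, h3, hsK.trans w3, h4⟩⟩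
    · exact ⟨x0, 0, ∅, ∅, ∅, isOpen_empty, isSigmaCompact_empty, fun h => absurd h hne⟩
  choose xf kf sf Vf Wf hWo hWl hdata using hstep
  obtain ⟨W0, w1, w2, w3⟩ := exists_open_sigmaCompact {x0} isCompact_singleton
  let U : I → Set X := wellFounded_lt.fix
    (fun d (prev : ∀ b, b < d → Set X) => W0 ∪ ⋃ (b : I) (h : b < d), Wf (prev b h))
  have hU : ∀ d, U d = W0 ∪ ⋃ (b : I) (_ : b < d), Wf (U b) :=
    fun d => wellFounded_lt.fix_eq _ d
  have hUo : ∀ d, IsOpen (U d) := by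
    intro d
    rw [hU d]
    exact w1.union (isOpen_iUnion fun b => isOpen_iUnion fun _ => hWo _)
  have hUl : ∀ d, IsSigmaCompact (U d) := by
    intro d
    have h2 : IsSigmaCompact (⋃ b ∈ Set.Iio d, Wf (U b)) :=
      isSigmaCompact_biUnion ((hI.low d).mono Iio_subset_Iic_self) fun b _ => hWl _
    rw [hU d, union_eq_iUnion]
    exact isSigmaCompact_iUnion _ fun b => by
      cases b
      · exact h2
      · exact w2
  have hne : ∀ d, (frontier (U d)).Nonempty := by
    intro d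
    by_contra h
    rw [not_nonempty_iff_eq_empty] at h
    refine hcon ((hUl d).of_isClosed_subset isClosed_connectedComponent
      ((isClopen_iff_frontier_eq_empty.2 h).connectedComponent_subset ?_))
    rw [hU d]
    exact Or.inl (w3 rfl)
  have hd := fun d => hdata _ (hne d)
  exact no_chain' hI G U (fun d => Vf (U d)) (fun d => Wf (U d)) (fun d => sf (U d)) W0 hU hUo hUl
    (fun d => hWo _) (fun d => hWl _) (fun d => xf (U d)) (fun d => kf (U d))
    (fun d => (hd d).2.2.1) (fun d => (hG _ _ (hd d).2.1).1) (fun d => (hd d).2.1)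
    (fun d => (hd d).1) (fun d => (hd d).2.2.2.1) (fun d => (hd d).2.2.2.2.1)
    (fun d => (hd d).2.2.2.2.2.1) (fun d => (hd d).2.2.2.2.2.2)

/-- The Baire category step: one of countably many sets covering a closed set is somewhere dense
in it. -/
theorem baire_dense [T2Space X] [LocallyCompactSpace X] {J : Type} [Countable J] (D : J → Set X)
    (F : Set X) (hF : IsClosed F) (hne : F.Nonempty) (hD : ∀ x ∈ F, ∃ j, x ∈ D j) :
    ∃ j V, IsOpen V ∧ (V ∩ (D j ∩ F)).Nonempty ∧ ∀ z ∈ V, z ∈ F → z ∈ closure (D j ∩ F) := by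
  have : LocallyCompactSpace F := hF.locallyCompactSpace
  have : Nonempty F := hne.to_subtype
  let f : J → Set F := fun j => Subtype.val ⁻¹' closure (D j ∩ F)
  have hf : ∀ j, IsClosed (f j) := fun j => isClosed_closure.preimage continuous_subtype_val
  have hU : ⋃ j, f j = univ := by
    refine eq_univ_of_forall fun y => ?_
    obtain ⟨j, h1⟩ := hD y.1 y.2
    exact mem_iUnion.2 ⟨j, subset_closure ⟨h1, y.2⟩⟩
  obtain ⟨j, y, hy⟩ := nonempty_interior_of_iUnion_of_closed hf hU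
  obtain ⟨t, hts, hto, hyt⟩ := mem_interior.1 hy
  obtain ⟨V0, hV0, rfl⟩ := isOpen_induced_iff.1 hto
  have hcl : ∀ z ∈ V0, z ∈ F → z ∈ closure (D j ∩ F) := fun z hz hzF => hts (a := ⟨z, hzF⟩) hz
  exact ⟨j, V0, hV0, mem_closure_iff.1 (hcl y.1 hyt y.2) V0 hV0 hyt, hcl⟩

theorem fibre_sigmaCompact (h : ∀ x : X, IsSigmaCompact (connectedComponent x))
    (c : ConnectedComponents X) : SigmaCompactSpace {x : X // ConnectedComponents.mk x = c} := by
  obtain ⟨x, rfl⟩ := ConnectedComponents.surjective_coe c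
  have : {y : X | ConnectedComponents.mk y = ConnectedComponents.mk x} =
      connectedComponent x := by
    ext y
    exact ConnectedComponents.coe_eq_coe'
  have h2 : IsSigmaCompact {y : X | ConnectedComponents.mk y = ConnectedComponents.mk x} := by
    rw [this]
    exact h x
  exact isSigmaCompact_iff_sigmaCompactSpace.1 h2

theorem fibre_isClosed (c : ConnectedComponents X) :
    IsClosed {x : X | ConnectedComponents.mk x = c} := by
  obtain ⟨x, rfl⟩ := ConnectedComponents.surjective_coe c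
  have : {y : X | ConnectedComponents.mk y = ConnectedComponents.mk x} =
      connectedComponent x := by
    ext y
    exact ConnectedComponents.coe_eq_coe'
  exact this ▸ isClosed_connectedComponent

theorem paracompact_of_weaklyTheta [T2Space X] [LocallyCompactSpace X] [LocallyConnectedSpace X]
    [CompletelyNormalSpace X] (h : WeaklyThetaRefinable X) : ParacompactSpace X := by
  obtain ⟨G, hG1, hG2⟩ := h {u | IsOpen u ∧ ∃ K, IsCompact K ∧ u ⊆ K} (fun u hu => hu.1) (by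
    refine eq_univ_of_forall fun x => ?_
    obtain ⟨K, hK, hx⟩ := exists_compact_mem_nhds x
    exact ⟨interior K, ⟨isOpen_interior, K, hK, interior_subset⟩, mem_interior_iff_mem_nhds.2 hx⟩)
  have hsc := component_sigmaCompact G (fun k s hs => by
    obtain ⟨h1, u, ⟨-, K, hK, huK⟩, hsu⟩ := hG1 k s hs
    exact ⟨h1, K, hK, hsu.trans huK⟩) (by
    intro F hF hne
    obtain ⟨⟨k, m⟩, V0, hV0, ⟨x, hxV, ⟨⟨s, hs, hxs⟩, hfin, hm⟩, hxF⟩, hcl⟩ := baire_dense
      (fun j : ℕ × ℕ => {x | {s ∈ G j.1 | x ∈ s}.Nonempty ∧ {s ∈ G j.1 | x ∈ s}.Finite ∧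
        {s ∈ G j.1 | x ∈ s}.ncard = j.2}) F hF hne (fun x _ =>
      let ⟨k, h1, h2⟩ := hG2 x
      ⟨(k, {s ∈ G k | x ∈ s}.ncard), h1, h2, rfl⟩)
    have ho : IsOpen (V0 ∩ ⋂₀ {s ∈ G k | x ∈ s}) :=
      hV0.inter (hfin.isOpen_sInter fun t ht => (hG1 k t ht.1).1)
    refine ⟨x, hxF, k, s, hs, V0 ∩ ⋂₀ {s ∈ G k | x ∈ s}, ho, ⟨hxV, fun t ht => ht.2⟩,
      fun y hy => hy.2 s ⟨hs, hxs⟩, hfin.countable.mono ?_⟩
    rintro t ⟨ht, y, ⟨hy1, hy2⟩, hy3⟩
    obtain ⟨w, ⟨hw1, hw2⟩, ⟨-, hwf, hwm⟩, -⟩ := mem_closure_iff.1 (hcl y hy2.1 hy3) _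
      ((hG1 k t ht).1.inter ho) ⟨hy1, hy2⟩
    have e : {s ∈ G k | x ∈ s} = {s ∈ G k | w ∈ s} :=
      eq_of_subset_of_ncard_le (fun r hr => ⟨hr.1, hw2.2 r hr⟩) (le_of_eq (hwm.trans hm.symm)) hwf
    rw [e]
    exact ⟨ht, hw1⟩)
  obtain ⟨e⟩ := exists_homeomorph_components (X := X)
  have := fibre_sigmaCompact hsc
  have : ∀ c : ConnectedComponents X,
      LocallyCompactSpace {x : X // ConnectedComponents.mk x = c} :=
    fun c => (fibre_isClosed c).locallyCompactSpace
  exact e.paracompactSpace_iff.1 (paracompact_sigma _)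

theorem metrizable_of_weaklyDeltaTheta [T2Space X] [LocallyCompactSpace X]
    [LocallyConnectedSpace X] [CompletelyNormalSpace X]
    (hm : ∀ x : X, ∃ s ∈ 𝓝 x, TopologicalSpace.MetrizableSpace s)
    (h : WeaklyDeltaThetaRefinable X) : TopologicalSpace.MetrizableSpace X := by
  classical
  have hloc : ∀ x : X, ∃ u, x ∈ u ∧ IsOpen u ∧ SecondCountableTopology u ∧
      ∃ K, IsCompact K ∧ u ⊆ K := by
    intro x
    obtain ⟨s, hs, hsm⟩ := hm x
    obtain ⟨K, hK1, hK2, hK3⟩ := local_compact_nhds hs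
    have : CompactSpace K := isCompact_iff_compactSpace.1 hK3
    have : TopologicalSpace.MetrizableSpace K := (IsEmbedding.inclusion hK2).metrizableSpace
    have : SecondCountableTopology K := inferInstance
    exact ⟨interior K, mem_interior_iff_mem_nhds.2 hK1, isOpen_interior,
      (IsEmbedding.inclusion interior_subset).secondCountableTopology, K, hK3, interior_subset⟩
  obtain ⟨G, hG1, hG2⟩ := h {u | IsOpen u ∧ SecondCountableTopology u ∧ ∃ K, IsCompact K ∧ u ⊆ K}
    (fun u hu => hu.1) (eq_univ_of_forall fun x => let ⟨u, h1, h2⟩ := hloc x; ⟨u, h2, h1⟩)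
  have hsc := component_sigmaCompact G (fun k s hs => by
    obtain ⟨h1, u, ⟨-, -, K, hK, huK⟩, hsu⟩ := hG1 k s hs
    exact ⟨h1, K, hK, hsu.trans huK⟩) (by
    intro F hF hne
    obtain ⟨k, V0, hV0, ⟨x, hxV, ⟨⟨s, hs, hxs⟩, -⟩, hxF⟩, hcl⟩ := baire_dense
      (fun k : ℕ => {x | {s ∈ G k | x ∈ s}.Nonempty ∧ {s ∈ G k | x ∈ s}.Countable}) F hF hne
      (fun x _ => hG2 x)
    obtain ⟨hso, u, ⟨-, hu, -⟩, hsu⟩ := hG1 k s hs
    refine ⟨x, hxF, k, s, hs, V0 ∩ s, hV0.inter hso, ⟨hxV, hxs⟩, inter_subset_right, ?_⟩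
    let E : Set X := s ∩ {x | {s ∈ G k | x ∈ s}.Countable}
    have : SecondCountableTopology E :=
      (IsEmbedding.inclusion (inter_subset_left.trans hsu)).secondCountableTopology
    obtain ⟨c, hc, hdense⟩ := TopologicalSpace.exists_countable_dense E
    refine (hc.biUnion fun w _ => w.2.2).mono ?_
    rintro t ⟨ht, y, ⟨hy1, hy2⟩, hy3⟩
    obtain ⟨w, ⟨hw1, hw2⟩, ⟨-, hw3⟩, -⟩ := mem_closure_iff.1 (hcl y hy2.1 hy3) _
      ((hG1 k t ht).1.inter hso) ⟨hy1, hy2.2⟩
    obtain ⟨v, hv1, hv2⟩ := hdense.exists_mem_open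
      ((hG1 k t ht).1.preimage continuous_subtype_val) ⟨⟨w, hw2, hw3⟩, hw1⟩
    exact mem_iUnion₂.2 ⟨v, hv1, ht, hv2⟩)
  obtain ⟨e⟩ := exists_homeomorph_components (X := X)
  let E : ConnectedComponents X → Type u := fun c => {x : X // ConnectedComponents.mk x = c}
  have hE : ∀ c, TopologicalSpace.MetrizableSpace (E c) := by
    intro c
    have := fibre_sigmaCompact hsc c
    have : LocallyCompactSpace (E c) := (fibre_isClosed c).locallyCompactSpace
    choose N hN1 hN2 hN3 _ using hloc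
    obtain ⟨t, htc, ht⟩ := isLindelof_univ.elim_countable_subcover
      (fun a : X => (Subtype.val : E c → X) ⁻¹' N a)
      (fun a => (hN2 a).preimage continuous_subtype_val)
      (fun z _ => mem_iUnion.2 ⟨z.1, hN1 z.1⟩)
    have : Countable t := htc.to_subtype
    have : ∀ a : t, SecondCountableTopology ((Subtype.val : E c → X) ⁻¹' N a.1) := by
      intro a
      have := hN3 a.1
      have hemb : IsEmbedding
          (fun z : ((Subtype.val : E c → X) ⁻¹' N a.1) => (⟨z.1.1, z.2⟩ : N a.1)) :=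
        (IsEmbedding.subtypeVal.comp IsEmbedding.subtypeVal).codRestrict _ _
      exact hemb.secondCountableTopology
    have : SecondCountableTopology (E c) :=
      TopologicalSpace.secondCountableTopology_of_countable_cover
        (U := fun a : t => (Subtype.val : E c → X) ⁻¹' N a.1)
        (fun a => (hN2 _).preimage continuous_subtype_val)
        (eq_univ_of_forall fun z => by
          obtain ⟨a, ha, hz⟩ := mem_iUnion₂.1 (ht (mem_univ z))
          exact mem_iUnion.2 ⟨⟨a, ha⟩, hz⟩)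
    infer_instance
  let : ∀ c, MetricSpace (E c) := fun c => TopologicalSpace.metrizableSpaceMetric (E c)
  let : MetricSpace (Σ c, E c) := Metric.Sigma.metricSpace
  exact e.symm.isEmbedding.metrizableSpace

end Pool.Agent.P.MP_7b8a73_gt
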