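import Pool.Agent.P.MP_7b8a73_gt.Stat

/-!
A Hausdorff, locally compact, locally connected, hereditarily normal, quasi-developable space
that is locally hereditarily Lindelof is covered by clopen hereditarily Lindelof sets.
-/

set_option autoImplicit false

namespace Pool.Agent.P.MP_7b8a73_gt

open Set Topology

variable {X : Type} [TopologicalSpace X]

/-- A quasi-developable space is weakly theta-refinable, in the strong form of Bennett and
Lutzer: every point lies in exactly one member of one of countably many open families. -/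
theorem exists_refinement (N : X → Set X) (hNo : ∀ x, IsOpen (N x)) (hNx : ∀ x, x ∈ N x)
    (G : ℕ → Set (Set X)) (hGo : ∀ k, ∀ s ∈ G k, IsOpen s)
    (hG : ∀ x : X, ∀ U : Set X, IsOpen U → x ∈ U →
          ∃ k, x ∈ ⋃₀ {s ∈ G k | x ∈ s} ∧ ⋃₀ {s ∈ G k | x ∈ s} ⊆ U) :
    ∃ H : X → ℕ → Set X, (∀ a k, IsOpen (H a k)) ∧ (∀ a k, H a k ⊆ N a) ∧
      ∀ x, ∃ a k, x ∈ H a k ∧ ∀ b, x ∈ H b k → b = a := by
  classical
  let r : X → X → Prop := WellOrderingRel
  have hwo : IsWellOrder X r := WellOrderingRel.isWellOrder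
  have hwf : WellFounded r := hwo.wf
  let a : X → X := fun x => hwf.min {b | x ∈ N b} ⟨x, hNx x⟩
  have ha1 : ∀ x, x ∈ N (a x) := fun x => hwf.min_mem {b | x ∈ N b} _
  have ha2 : ∀ x b, x ∈ N b → ¬ r b (a x) := fun x b hb =>
    hwf.not_lt_min {b | x ∈ N b} (show b ∈ {b | x ∈ N b} from hb)
  choose k hk1 hk2 using fun x => hG x (N (a x)) (hNo _) (ha1 x)
  have hsub : ∀ y, ∀ s ∈ G (k y), y ∈ s → s ⊆ N (a y) := by
    intro y s hs hy z hz
    exact hk2 y ⟨s, ⟨hs, hy⟩, hz⟩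
  refine ⟨fun b j => ⋃₀ {s | s ∈ G j ∧ ∃ y ∈ s, a y = b ∧ k y = j}, ?_, ?_, ?_⟩
  · intro b j
    exact isOpen_sUnion fun s hs => hGo j s hs.1
  · rintro b j z ⟨s, ⟨hs, y, hy, rfl, rfl⟩, hz⟩
    exact hsub y s hs hy hz
  · intro x
    obtain ⟨s, ⟨hs, hxs⟩, -⟩ := hk1 x
    refine ⟨a x, k x, ⟨s, ⟨hs, x, hxs, rfl, rfl⟩, hxs⟩, ?_⟩
    rintro b ⟨t, ⟨ht, y, hy, rfl, hky⟩, hxt⟩
    have h1 : y ∈ N (a x) := hsub x t ht hxt hy
    have h2 : x ∈ N (a y) := hsub y t (hky ▸ ht) hy hxt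
    rcases trichotomous_of r (a x) (a y) with h | h | h
    · exact absurd h (ha2 y _ h1)
    · exact h.symm
    · exact absurd h (ha2 x _ h2)

/-- The Baire category step. -/
theorem baire_step [T2Space X] [LocallyCompactSpace X] (H : X → ℕ → Set X)
    (hHo : ∀ a k, IsOpen (H a k))
    (hH : ∀ x, ∃ a k, x ∈ H a k ∧ ∀ b, x ∈ H b k → b = a)
    (F : Set X) (hF : IsClosed F) (hne : F.Nonempty) :
    ∃ x ∈ F, ∃ a k V, IsOpen V ∧ x ∈ V ∧ V ⊆ H a k ∧
      ∀ y ∈ V, y ∈ F → ∀ b, y ∈ H b k → b = a := by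
  have : LocallyCompactSpace F := hF.locallyCompactSpace
  have : Nonempty F := hne.to_subtype
  let D : ℕ → Set X := fun k => {x | x ∈ F ∧ ∃ a, x ∈ H a k ∧ ∀ b, x ∈ H b k → b = a}
  let f : ℕ → Set F := fun k => Subtype.val ⁻¹' closure (D k)
  have hf : ∀ k, IsClosed (f k) := fun k => isClosed_closure.preimage continuous_subtype_val
  have hU : ⋃ k, f k = univ := by
    refine eq_univ_of_forall fun y => ?_
    obtain ⟨a, k, h1, h2⟩ := hH y.1
    exact mem_iUnion.2 ⟨k, subset_closure ⟨y.2, a, h1, h2⟩⟩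
  obtain ⟨k, y, hy⟩ := nonempty_interior_of_iUnion_of_closed hf hU
  obtain ⟨t, hts, hto, hyt⟩ := mem_interior.1 hy
  obtain ⟨V0, hV0, rfl⟩ := isOpen_induced_iff.1 hto
  have hcl : ∀ z ∈ V0, z ∈ F → z ∈ closure (D k) := fun z hz hzF => hts (a := ⟨z, hzF⟩) hz
  obtain ⟨x, hxV, hxF, a, hxa, -⟩ := mem_closure_iff.1 (hcl y.1 hyt y.2) V0 hV0 hyt
  refine ⟨x, hxF, a, k, V0 ∩ H a k, hV0.inter (hHo _ _), ⟨hxV, hxa⟩, inter_subset_right, ?_⟩
  intro z hz hzF b hzb
  obtain ⟨w, ⟨hw1, hw2⟩, -, c, -, hc⟩ := mem_closure_iff.1 (hcl z hz.1 hzF) (H a k ∩ H b k)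
    ((hHo _ _).inter (hHo _ _)) ⟨hz.2, hzb⟩
  exact (hc b hw2).trans (hc a hw1).symm

/-- An open Lindelof set in a locally compact space has a countable cofinal family of compact
subsets. -/
theorem exists_compact_family [LocallyCompactSpace X] (W : Set X) (hWo : IsOpen W)
    (hWl : IsLindelof W) :
    ∃ (J : Type) (_ : Countable J) (Q : J → Set X), (∀ j, IsCompact (Q j) ∧ Q j ⊆ W) ∧
      ∀ T, IsCompact T → T ⊆ W → ∃ j, T ⊆ Q j := by
  choose K hK1 hK2 hK3 using fun p : W => exists_compact_subset hWo p.2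
  obtain ⟨t, htc, ht⟩ := hWl.elim_countable_subcover (fun p : W => interior (K p))
    (fun _ => isOpen_interior) (fun p hp => mem_iUnion.2 ⟨⟨p, hp⟩, hK2 ⟨p, hp⟩⟩)
  have : Countable t := htc.to_subtype
  refine ⟨Finset t, inferInstance, fun A => ⋃ p ∈ A, K p.1, fun A => ⟨?_, ?_⟩, ?_⟩
  · exact A.isCompact_biUnion fun p _ => hK1 _
  · exact iUnion₂_subset fun p _ => hK3 _
  · intro T hT hTW
    obtain ⟨A, hA⟩ := hT.elim_finite_subcover (fun p : t => interior (K p.1))
      (fun _ => isOpen_interior) (by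
        intro z hz
        obtain ⟨p, hp, hz'⟩ := mem_iUnion₂.1 (ht (hTW hz))
        exact mem_iUnion.2 ⟨⟨p, hp⟩, hz'⟩)
    refine ⟨A, fun z hz => ?_⟩
    obtain ⟨p, hp, hz'⟩ := mem_iUnion₂.1 (hA hz)
    exact mem_iUnion₂.2 ⟨p, hp, interior_subset hz'⟩

/-- The local step: a component of `O ∩ U` inside `B` whose closure meets the frontier of `U`
inside `B`. -/
theorem exists_component [LocallyConnectedSpace X] (O U B : Set X) (hO : IsOpen O)
    (hU : IsOpen U) (hB : IsOpen B) (x : X) (hxO : x ∈ O) (hxB : x ∈ B) (hxU : x ∈ frontier U)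
    (hfr : ∀ p ∈ frontier B, p ∈ U → p ∉ O) :
    ∃ z ∈ O ∩ U, connectedComponentIn (O ∩ U) z ⊆ B ∧
      ∃ p ∈ closure (connectedComponentIn (O ∩ U) z), p ∈ frontier U ∧ p ∈ B := by
  obtain ⟨W, hWs, hWo, hxW, hWc⟩ := locallyConnectedSpace_iff_subsets_isOpen_isConnected.1
    inferInstance x (O ∩ B) ((hO.inter hB).mem_nhds ⟨hxO, hxB⟩)
  obtain ⟨z, hzW, hzU⟩ := mem_closure_iff.1 (frontier_subset_closure hxU) W hWo hxW
  have hz : z ∈ O ∩ U := ⟨(hWs hzW).1, hzU⟩
  have hOU : IsOpen (O ∩ U) := hO.inter hU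
  set C := connectedComponentIn (O ∩ U) z with hC
  have hCo : IsOpen C := hOU.connectedComponentIn
  have hzC : z ∈ C := mem_connectedComponentIn hz
  have hCs : C ⊆ O ∩ U := connectedComponentIn_subset _ _
  have hxnU : x ∉ U := by
    rw [hU.frontier_eq] at hxU
    exact hxU.2
  refine ⟨z, hz, ?_, ?_⟩
  · refine isPreconnected_connectedComponentIn.subset_of_closure_inter_subset hB
      ⟨z, hzC, (hWs hzW).2⟩ ?_
    rintro p ⟨hp1, hp2⟩
    by_contra hpB
    refine hfr p ?_ (hCs hp2).2 (hCs hp2).1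
    rw [hB.frontier_eq]
    exact ⟨hp1, hpB⟩
  · by_contra hcon
    push Not at hcon
    have hWC : W ⊆ C := by
      refine hWc.isPreconnected.subset_of_closure_inter_subset hCo ⟨z, hzW, hzC⟩ ?_
      rintro p ⟨hp1, hp2⟩
      have hpU : p ∈ U := by
        by_contra hpU
        refine hcon p hp1 ?_ (hWs hp2).2
        rw [hU.frontier_eq]
        exact ⟨closure_mono (hCs.trans inter_subset_right) hp1, hpU⟩
      have hp : p ∈ O ∩ U := ⟨(hWs hp2).1, hpU⟩
      obtain ⟨q, hq1, hq2⟩ := mem_closure_iff.1 hp1 (connectedComponentIn (O ∩ U) p)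
        hOU.connectedComponentIn (mem_connectedComponentIn hp)
      have e1 := connectedComponentIn_eq hq1
      have e2 := connectedComponentIn_eq hq2
      rw [hC, e2, ← e1]
      exact mem_connectedComponentIn hp
    exact hxnU (hCs (hWC hxW)).2

/-- The heart of the proof: there is no strictly growing chain of length omega one. -/
theorem no_chain [T2Space X] [LocallyCompactSpace X] [LocallyConnectedSpace X]
    [CompletelyNormalSpace X] {I : Type} [LinearOrder I] [WellFoundedLT I] (hI : OmegaOne I)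
    (N : X → Set X) (hNl : ∀ x, ∀ s ⊆ N x, IsLindelof s)
    (H : X → ℕ → Set X) (hHo : ∀ a k, IsOpen (H a k)) (hHN : ∀ a k, H a k ⊆ N a)
    (U V : I → Set X) (W0 : Set X) (hU : ∀ d, U d = W0 ∪ ⋃ (b : I) (_ : b < d), V b)
    (hUo : ∀ d, IsOpen (U d)) (hUl : ∀ d, ∀ s ⊆ U d, IsLindelof s)
    (x a : I → X) (k : I → ℕ) (hVo : ∀ d, IsOpen (V d))
    (hxf : ∀ d, x d ∈ frontier (U d)) (hxV : ∀ d, x d ∈ V d) (hVH : ∀ d, V d ⊆ H (a d) (k d))
    (hD : ∀ d, ∀ y ∈ V d, y ∈ frontier (U d) → ∀ b, y ∈ H b (k d) → b = a d) : False := by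
  have hxn : ∀ d, x d ∉ U d := by
    intro d
    have := hxf d
    rw [(hUo d).frontier_eq] at this
    exact this.2
  have hVU : ∀ b d, b < d → V b ⊆ U d := by
    intro b d hbd z hz
    rw [hU d]
    exact Or.inr (mem_iUnion₂.2 ⟨b, hbd, hz⟩)
  have hUU : ∀ b d, b ≤ d → U b ⊆ U d := by
    intro b d hbd z hz
    rw [hU b] at hz
    rw [hU d]
    rcases hz with hz | hz
    · exact Or.inl hz
    · obtain ⟨c, hc, hz⟩ := mem_iUnion₂.1 hz
      exact Or.inr (mem_iUnion₂.2 ⟨c, hc.trans_le hbd, hz⟩)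
  have hcover : ∀ d, (∃ b, b < d) → ∀ z ∈ U d, ∃ c, c < d ∧ z ∈ U c ∪ V c := by
    rintro d ⟨b, hb⟩ z hz
    rw [hU d] at hz
    rcases hz with hz | hz
    · exact ⟨b, hb, Or.inl (by rw [hU b]; exact Or.inl hz)⟩
    · obtain ⟨c, hc, hz⟩ := mem_iUnion₂.1 hz
      exact ⟨c, hc, Or.inr hz⟩
  have hUVl : ∀ c, ∀ s ⊆ U c ∪ V c, IsLindelof s := by
    intro c s hs
    obtain ⟨d, hd⟩ := hI.bdd {c} (countable_singleton c)
    have hcd : c < d := hd c rfl
    exact hUl d s (hs.trans (union_subset (hUU c d hcd.le) (hVU c d hcd)))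
  -- the fibres of `a` are bounded
  have hfib : ∀ b, ∃ c, ∀ d, c < d → a d ≠ a b := by
    intro b
    obtain ⟨t, htc, ht⟩ := (hNl (a b) (N (a b) ∩ ⋃ d, V d) inter_subset_left).elim_countable_subcover
      V hVo inter_subset_right
    obtain ⟨c, hc⟩ := hI.bdd t htc
    refine ⟨c, fun d hcd had => hxn d ?_⟩
    have : x d ∈ N (a b) ∩ ⋃ d, V d :=
      ⟨had ▸ hHN _ _ (hVH d (hxV d)), mem_iUnion.2 ⟨d, hxV d⟩⟩
    obtain ⟨e, he, hxe⟩ := mem_iUnion₂.1 (ht this)
    exact hVU e d ((hc e he).trans hcd) hxe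
  -- a stationary set on which `k` is constant and `a` is injective
  obtain ⟨k0, hS1⟩ := ((stat_univ hI).inj a hfib).pigeon hI (fun d j => k d = j)
    (fun d _ => ⟨k d, rfl⟩)
  set S1 := {d | d ∈ {d | d ∈ (univ : Set I) ∧ ∀ b, b < d → a d ≠ a b} ∧ k d = k0} with hS1def
  have hk0 : ∀ d ∈ S1, k d = k0 := fun d hd => hd.2
  have hinj : ∀ d ∈ S1, ∀ e ∈ S1, a d = a e → d = e := by
    intro d hd e he hde
    rcases lt_trichotomy d e with h | h | h
    · exact absurd hde.symm (he.1.2 d h)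
    · exact h
    · exact absurd hde (hd.1.2 e h)
  clear_value S1
  -- relatively compact neighbourhoods
  choose K hK1 hK2 hK3 using fun d => exists_compact_subset (hVo d) (hxV d)
  let B : I → Set X := fun d => interior (K d)
  have hBo : ∀ d, IsOpen (B d) := fun d => isOpen_interior
  have hBcl : ∀ d, closure (B d) ⊆ K d := fun d =>
    closure_minimal interior_subset (hK1 d).isClosed
  have hfrK : ∀ d, frontier (B d) ⊆ K d := fun d => frontier_subset_closure.trans (hBcl d)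
  have hxfr : ∀ d, x d ∉ frontier (B d) := by
    intro d h
    rw [(hBo d).frontier_eq] at h
    exact h.2 (hK2 d)
  let R : I → Set X := fun d => frontier (B d) ∩ frontier (U d)
  have hRc : ∀ d, IsClosed (R d) := fun d => isClosed_frontier.inter isClosed_frontier
  have hRV : ∀ d, R d ⊆ V d := fun d p hp => hK3 d (hfrK d hp.1)
  have hsep : Disjoint (𝓝ˢ (x '' S1)) (𝓝ˢ (⋃ d ∈ S1, R d)) := by
    apply completely_normal
    · rw [disjoint_left]
      intro p hp hp2
      obtain ⟨d, hd, hpd⟩ := mem_iUnion₂.1 hp2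
      have hpx : p ≠ x d := fun h => hxfr d (h ▸ hpd.1)
      obtain ⟨q, ⟨hq1, hq2⟩, e, he, rfl⟩ := mem_closure_iff.1 hp (H (a d) (k d) ∩ {x d}ᶜ)
        ((hHo _ _).inter isOpen_compl_singleton) ⟨hVH d (hRV d hpd), hpx⟩
      have := hD e (x e) (hxV e) (hxf e) (a d) (by rw [hk0 e he, ← hk0 d hd]; exact hq1)
      have := hinj d hd e he this
      subst this
      exact hq2 rfl
    · rw [disjoint_left]
      rintro p ⟨d, hd, rfl⟩ hp
      obtain ⟨q, ⟨hq1, hq2⟩, hq3⟩ := mem_closure_iff.1 hp (H (a d) (k d) ∩ (R d)ᶜ)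
        ((hHo _ _).inter (hRc d).isOpen_compl) ⟨hVH d (hxV d), fun h => hxfr d h.1⟩
      obtain ⟨e, he, hqe⟩ := mem_iUnion₂.1 hq3
      have := hD e q (hRV e hqe) hqe.2 (a d) (by rw [hk0 e he, ← hk0 d hd]; exact hq1)
      have := hinj d hd e he this
      subst this
      exact hq2 hqe
  obtain ⟨O1, G, hO1, hG, hxO1, hRG, hOG⟩ := separatedNhds_iff_disjoint.2 hsep
  -- the rest of the frontier of `B d` inside the closure of `U d`
  let T : I → Set X := fun d => (frontier (B d) ∩ closure (U d)) \ G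
  have hTc : ∀ d, IsCompact (T d) := fun d =>
    (((hK1 d).of_isClosed_subset isClosed_frontier (hfrK d)).inter_right isClosed_closure).diff hG
  have hTU : ∀ d ∈ S1, T d ⊆ U d := by
    rintro d hd p ⟨⟨hp1, hp2⟩, hp3⟩
    by_contra hpU
    refine hp3 (hRG (mem_iUnion₂.2 ⟨d, hd, hp1, ?_⟩))
    rw [(hUo d).frontier_eq]
    exact ⟨hp2, hpU⟩
  obtain ⟨c, hS2⟩ := hS1.fodor hI (fun d c => T d ⊆ U c ∪ V c) (by
    intro d hd hne
    obtain ⟨b0, hb0⟩ := hne
    have : Nonempty {c // c < d} := ⟨⟨b0, hb0⟩⟩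
    obtain ⟨c, hc⟩ := (hTc d).elim_directed_cover (fun c : {c // c < d} => U c.1 ∪ V c.1)
      (fun c => (hUo _).union (hVo _))
      (by
        intro z hz
        obtain ⟨c, hc, hz'⟩ := hcover d ⟨b0, hb0⟩ z (hTU d hd hz)
        exact mem_iUnion.2 ⟨⟨c, hc⟩, hz'⟩)
      (by
        refine Monotone.directed_le (f := fun c : {c // c < d} => U c.1 ∪ V c.1) ?_
        intro c e hce
        rcases (show c.1 ≤ e.1 from hce).lt_or_eq with h | h
        · exact (union_subset (hUU _ _ h.le) (hVU _ _ h)).trans subset_union_left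
        · simp only [h]
          exact le_rfl)
    exact ⟨c.1, c.2, hc⟩)
  obtain ⟨J, _, Q, hQ, hQT⟩ := exists_compact_family (U c ∪ V c) ((hUo c).union (hVo c))
    (hUVl c _ subset_rfl)
  obtain ⟨j, hS3⟩ := hS2.pigeon hI (fun d j => T d ⊆ Q j)
    (fun d hd => hQT (T d) (hTc d) hd.2.2)
  set S3 := {d | d ∈ {d | d ∈ S1 ∧ c < d ∧ T d ⊆ U c ∪ V c} ∧ T d ⊆ Q j} with hS3def
  have hS31 : ∀ d ∈ S3, d ∈ S1 := fun d hd => hd.1.1
  let O : Set X := O1 \ Q j
  have hO : IsOpen O := hO1.sdiff (hQ j).1.isClosed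
  have hcomp : ∀ d ∈ S3, ∃ z ∈ O ∩ U d, connectedComponentIn (O ∩ U d) z ⊆ B d ∧
      ∃ p ∈ closure (connectedComponentIn (O ∩ U d) z), p ∈ frontier (U d) ∧ p ∈ B d := by
    intro d hd
    refine exists_component O (U d) (B d) hO (hUo d) (hBo d) (x d) ?_ (hK2 d) (hxf d) ?_
    · refine ⟨hxO1 ⟨d, hS31 d hd, rfl⟩, fun h => hxn d ?_⟩
      exact union_subset (hUU _ _ hd.1.2.1.le) (hVU _ _ hd.1.2.1) ((hQ j).2 h)
    · intro p hp hpU hpO
      by_cases hpG : p ∈ G
      · exact disjoint_left.1 hOG hpO.1 hpG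
      · exact hpO.2 (hd.2 ⟨⟨hp, subset_closure hpU⟩, hpG⟩)
  clear_value S3
  have : Nonempty X := ⟨x c⟩
  choose! z hz hzB p hp1 hp2 hp3 using hcomp
  let C : I → Set X := fun d => connectedComponentIn (O ∩ U d) (z d)
  have hCo : ∀ d, IsOpen (C d) := fun d => (hO.inter (hUo d)).connectedComponentIn
  have hdisj : ∀ b ∈ S3, ∀ d ∈ S3, b < d → ∀ q, q ∈ C b → q ∈ C d → False := by
    intro b hb d hd hbd q hqb hqd
    have h1 : C b ⊆ C d := by
      have h2 : C b ⊆ connectedComponentIn (O ∩ U d) q :=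
        isPreconnected_connectedComponentIn.subset_connectedComponentIn hqb
          ((connectedComponentIn_subset _ _).trans
            (inter_subset_inter_right _ (hUU b d hbd.le)))
      rwa [← connectedComponentIn_eq hqd] at h2
    have h3 : p b ∈ H (a d) (k d) :=
      hVH d (hK3 d (hBcl d (closure_mono (h1.trans (hzB d hd)) (hp1 b hb))))
    have h4 := hD b (p b) (hK3 b (interior_subset (hp3 b hb))) (hp2 b hb) (a d)
      (by rw [hk0 b (hS31 b hb), ← hk0 d (hS31 d hd)]; exact h3)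
    exact hbd.ne' (hinj d (hS31 d hd) b (hS31 b hb) h4)
  obtain ⟨e, hS4⟩ := hS3.fodor hI (fun d c => z d ∈ U c ∪ V c)
    (fun d hd hne => hcover d hne _ (hz d hd).2)
  set S4 := {d | d ∈ S3 ∧ e < d ∧ z d ∈ U e ∪ V e} with hS4def
  obtain ⟨t, htS, htc, ht⟩ :=
    (hUVl e ((U e ∪ V e) ∩ ⋃ d ∈ S4, C d) inter_subset_left).elim_countable_subcover_image
      (b := S4) (c := C) (fun d _ => hCo d) inter_subset_right
  refine hS4.not_countable hI (htc.mono ?_)
  intro d hd
  have hzd : z d ∈ C d := mem_connectedComponentIn (hz d hd.1)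
  obtain ⟨b, hb, hzb⟩ := mem_iUnion₂.1 (ht ⟨hd.2.2, mem_iUnion₂.2 ⟨d, hd, hzd⟩⟩)
  rcases lt_trichotomy b d with h | h | h
  · exact (hdisj b (htS hb).1 d hd.1 h _ hzb hzd).elim
  · exact h ▸ hb
  · exact (hdisj d hd.1 b (htS hb).1 h _ hzd hzb).elim

/-- Every point has a clopen hereditarily Lindelof neighbourhood. -/
theorem exists_clopen [T2Space X] [LocallyCompactSpace X] [LocallyConnectedSpace X]
    [CompletelyNormalSpace X]
    (N : X → Set X) (hNo : ∀ x, IsOpen (N x)) (hNx : ∀ x, x ∈ N x)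
    (hNl : ∀ x, ∀ s ⊆ N x, IsLindelof s)
    (H : X → ℕ → Set X) (hHo : ∀ a k, IsOpen (H a k)) (hHN : ∀ a k, H a k ⊆ N a)
    (hH : ∀ x, ∃ a k, x ∈ H a k ∧ ∀ b, x ∈ H b k → b = a) (x0 : X) :
    ∃ U, IsClopen U ∧ x0 ∈ U ∧ IsLindelof U := by
  by_contra hcon
  obtain ⟨I, _, _, hI⟩ := exists_omegaOne
  have hstep : ∀ U : Set X, ∃ (x a : X) (k : ℕ) (V : Set X), IsOpen V ∧ V ⊆ H a k ∧
      ((frontier U).Nonempty → x ∈ frontier U ∧ x ∈ V ∧
        ∀ y ∈ V, y ∈ frontier U → ∀ b, y ∈ H b k → b = a) := by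
    intro U
    by_cases hne : (frontier U).Nonempty
    · obtain ⟨x, hx, a, k, V, h1, h2, h3, h4⟩ := baire_step H hHo hH _ isClosed_frontier hne
      exact ⟨x, a, k, V, h1, h3, fun _ => ⟨hx, h2, h4⟩⟩
    · exact ⟨x0, x0, 0, ∅, isOpen_empty, empty_subset _, fun h => absurd h hne⟩
  choose xf af kf Vf hVo hVH hdata using hstep
  let U : I → Set X := wellFounded_lt.fix
    (fun d (prev : ∀ b, b < d → Set X) => N x0 ∪ ⋃ (b : I) (h : b < d), Vf (prev b h))
  have hU : ∀ d, U d = N x0 ∪ ⋃ (b : I) (_ : b < d), Vf (U b) :=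
    fun d => wellFounded_lt.fix_eq _ d
  have hUo : ∀ d, IsOpen (U d) := by
    intro d
    rw [hU d]
    exact (hNo x0).union (isOpen_iUnion fun b => isOpen_iUnion fun _ => hVo _)
  have hUl : ∀ d, ∀ s ⊆ U d, IsLindelof s := by
    intro d s hs
    have h1 : s = (s ∩ N x0) ∪ ⋃ b ∈ Set.Iio d, s ∩ Vf (U b) := by
      ext z
      constructor
      · intro hz
        have := hs hz
        rw [hU d] at this
        rcases this with h | h
        · exact Or.inl ⟨hz, h⟩
        · obtain ⟨b, hb, h⟩ := mem_iUnion₂.1 h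
          exact Or.inr (mem_iUnion₂.2 ⟨b, hb, hz, h⟩)
      · rintro (h | h)
        · exact h.1
        · obtain ⟨b, hb, h⟩ := mem_iUnion₂.1 h
          exact h.1
    rw [h1]
    refine (hNl x0 _ inter_subset_right).union
      (((hI.low d).mono Iio_subset_Iic_self).isLindelof_biUnion fun b _ => ?_)
    exact hNl (af (U b)) _ (inter_subset_right.trans ((hVH _).trans (hHN _ _)))
  have hne : ∀ d, (frontier (U d)).Nonempty := by
    intro d
    by_contra h
    rw [not_nonempty_iff_eq_empty] at h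
    refine hcon ⟨U d, isClopen_iff_frontier_eq_empty.2 h, ?_, hUl d _ subset_rfl⟩
    rw [hU d]
    exact Or.inl (hNx x0)
  exact no_chain hI N hNl H hHo hHN U (fun d => Vf (U d)) (N x0) hU hUo hUl
    (fun d => xf (U d)) (fun d => af (U d)) (fun d => kf (U d)) (fun d => hVo _)
    (fun d => (hdata _ (hne d)).1) (fun d => (hdata _ (hne d)).2.1) (fun d => hVH _)
    (fun d => (hdata _ (hne d)).2.2)

/-- A space all of whose components are open and metrizable is metrizable. -/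
theorem metrizable_of_components [LocallyConnectedSpace X]
    (h : ∀ x : X, TopologicalSpace.MetrizableSpace (connectedComponent x)) :
    TopologicalSpace.MetrizableSpace X := by
  classical
  let E : ConnectedComponents X → Type := fun c => {x : X // ConnectedComponents.mk x = c}
  have hE : ∀ c, TopologicalSpace.MetrizableSpace (E c) := by
    intro c
    obtain ⟨x, rfl⟩ := ConnectedComponents.surjective_coe c
    have := h x
    have hsub : {y : X | ConnectedComponents.mk y = ConnectedComponents.mk x} ⊆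
        connectedComponent x := fun y hy => ConnectedComponents.coe_eq_coe'.1 hy
    exact (IsEmbedding.inclusion hsub).metrizableSpace
  let : ∀ c, MetricSpace (E c) := fun c => TopologicalSpace.metrizableSpaceMetric (E c)
  let : MetricSpace (Σ c, E c) := Metric.Sigma.metricSpace
  have hopen : ∀ c, IsOpen {x : X | ConnectedComponents.mk x = c} := by
    intro c
    obtain ⟨x, rfl⟩ := ConnectedComponents.surjective_coe c
    have : {y : X | ConnectedComponents.mk y = ConnectedComponents.mk x} =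
        connectedComponent x := by
      ext y
      exact ConnectedComponents.coe_eq_coe'
    rw [this]
    exact isOpen_connectedComponent
  let e : (Σ c, E c) ≃ₜ X := (Equiv.sigmaFiberEquiv ConnectedComponents.mk).toHomeomorphOfContinuousOpen
    (continuous_sigma fun c => continuous_subtype_val)
    (isOpenMap_sigma.2 fun c => (hopen c).isOpenMap_subtype_val)
  exact e.symm.isEmbedding.metrizableSpace

end Pool.Agent.P.MP_7b8a73_gt
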