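import Mathlib

/-!
Stationary sets in a well order all of whose countable subsets are strictly bounded and all of
whose initial segments are countable (that is, in the first uncountable ordinal), in the form
used for the metrization proof: `S` is stationary when every function `g` has a closure point
in `S`.
-/

set_option autoImplicit false

namespace Pool.Agent.P.MP_7b8a73_gt

open Set

/-- A type ordered like the first uncountable ordinal. -/
structure OmegaOne (I : Type) [LinearOrder I] : Prop where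
  bdd : ∀ s : Set I, s.Countable → ∃ b, ∀ a ∈ s, a < b
  low : ∀ b : I, (Set.Iic b).Countable

theorem exists_omegaOne :
    ∃ (I : Type) (_ : LinearOrder I) (_ : WellFoundedLT I), OmegaOne I := by
  have hlow : ∀ b : (Cardinal.aleph 1 : Cardinal.{0}).ord.ToType, (Set.Iic b).Countable := by
    intro b
    have h1 : (Set.Iio b).Countable := by
      rw [← Cardinal.le_aleph0_iff_set_countable, ← Cardinal.lt_aleph_one_iff]
      have := Cardinal.mk_Iio_lt b (by simp)
      simpa using this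
    rw [← Set.Iio_insert]
    exact h1.insert b
  refine ⟨(Cardinal.aleph 1 : Cardinal.{0}).ord.ToType, inferInstance, inferInstance, ?_, hlow⟩
  intro s hs
  by_contra h
  push Not at h
  have hc : (Set.univ : Set (Cardinal.aleph 1 : Cardinal.{0}).ord.ToType).Countable := by
    refine (hs.biUnion (fun a _ => hlow a)).mono ?_
    intro b _
    obtain ⟨a, ha, hb⟩ := h b
    exact Set.mem_biUnion ha hb
  rw [← Cardinal.le_aleph0_iff_set_countable, ← Cardinal.lt_aleph_one_iff] at hc
  simp at hc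

variable {I : Type} [LinearOrder I]

/-- `S` contains a nonminimal closure point of every function. -/
def Stat (S : Set I) : Prop :=
  ∀ g : I → I, ∃ d ∈ S, (∃ b, b < d) ∧ ∀ b, b < d → g b < d

theorem Stat.mono {S T : Set I} (h : Stat S) (hST : S ⊆ T) : Stat T := by
  intro g
  obtain ⟨d, hd, h2⟩ := h g
  exact ⟨d, hST hd, h2⟩

theorem Stat.closed {S : Set I} (h : Stat S) (g : I → I) :
    Stat {d | d ∈ S ∧ (∃ b, b < d) ∧ ∀ b, b < d → g b < d} := by
  intro g'
  obtain ⟨d, hd, h1, h2⟩ := h (fun b => max (g b) (g' b))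
  exact ⟨d, ⟨hd, h1, fun b hb => lt_of_le_of_lt (le_max_left _ _) (h2 b hb)⟩, h1,
    fun b hb => lt_of_le_of_lt (le_max_right _ _) (h2 b hb)⟩

theorem stat_univ [WellFoundedLT I] (hI : OmegaOne I) : Stat (Set.univ : Set I) := by
  intro g
  have hstep : ∀ a : I, ∃ c, a < c ∧ ∀ b, b ≤ a → g b < c := by
    intro a
    obtain ⟨c, hc⟩ := hI.bdd (insert a (g '' Set.Iic a)) (((hI.low a).image g).insert a)
    exact ⟨c, hc a (Set.mem_insert _ _),
      fun b hb => hc _ (Set.mem_insert_of_mem _ ⟨b, hb, rfl⟩)⟩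
  choose f hf1 hf2 using hstep
  obtain ⟨a0, -⟩ := hI.bdd ∅ Set.countable_empty
  let u : ℕ → I := fun n => f^[n] a0
  have hu : ∀ n, u (n + 1) = f (u n) := fun n => Function.iterate_succ_apply' f n a0
  obtain ⟨b0, hb0⟩ := hI.bdd (Set.range u) (Set.countable_range u)
  have hne : {c | ∀ n, u n < c}.Nonempty := ⟨b0, fun n => hb0 _ ⟨n, rfl⟩⟩
  let d := wellFounded_lt.min _ hne
  have hd : ∀ n, u n < d := wellFounded_lt.min_mem _ hne
  refine ⟨d, Set.mem_univ _, ⟨u 0, hd 0⟩, fun b hb => ?_⟩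
  have : ¬ ∀ n, u n < b := fun h =>
    wellFounded_lt.not_lt_min {c | ∀ n, u n < c} (show b ∈ {c | ∀ n, u n < c} from h) hb
  push Not at this
  obtain ⟨n, hn⟩ := this
  have := hf2 (u n) b hn
  rw [← hu] at this
  exact this.trans (hd _)

theorem Stat.pigeon (hI : OmegaOne I) {S : Set I} (h : Stat S) {J : Type} [Countable J]
    (P : I → J → Prop) (hP : ∀ d ∈ S, ∃ j, P d j) : ∃ j, Stat {d | d ∈ S ∧ P d j} := by
  by_contra hcon
  push Not at hcon
  simp only [Stat, not_forall] at hcon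
  choose g hg using hcon
  have : ∀ b : I, ∃ c, ∀ j, g j b < c := by
    intro b
    obtain ⟨c, hc⟩ := hI.bdd (Set.range fun j => g j b) (Set.countable_range _)
    exact ⟨c, fun j => hc _ ⟨j, rfl⟩⟩
  choose G hG using this
  obtain ⟨d, hd, h1, h2⟩ := h G
  obtain ⟨j, hj⟩ := hP d hd
  exact hg j ⟨d, ⟨hd, hj⟩, h1, fun b hb => (hG b j).trans (h2 b hb)⟩

/-- The pressing down lemma. -/
theorem Stat.fodor (hI : OmegaOne I) {S : Set I} (h : Stat S)
    (P : I → I → Prop) (hP : ∀ d ∈ S, (∃ b, b < d) → ∃ c, c < d ∧ P d c) :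
    ∃ c, Stat {d | d ∈ S ∧ c < d ∧ P d c} := by
  by_contra hcon
  push Not at hcon
  simp only [Stat, not_forall] at hcon
  choose g hg using hcon
  have : ∀ b : I, ∃ e, ∀ c, c ≤ b → ∀ b', b' ≤ b → g c b' < e := by
    intro b
    obtain ⟨e, he⟩ := hI.bdd ((fun p : I × I => g p.1 p.2) '' (Set.Iic b ×ˢ Set.Iic b))
      (((hI.low b).prod (hI.low b)).image _)
    exact ⟨e, fun c hc b' hb' => he _ ⟨(c, b'), ⟨hc, hb'⟩, rfl⟩⟩
  choose G hG using this
  obtain ⟨d, hd, h1, h2⟩ := h G
  obtain ⟨c, hcd, hc⟩ := hP d hd h1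
  refine hg c ⟨d, ⟨hd, hcd, hc⟩, h1, fun b hb => ?_⟩
  exact (hG (max b c) c (le_max_right _ _) b (le_max_left _ _)).trans (h2 _ (max_lt hb hcd))

theorem Stat.not_countable (hI : OmegaOne I) {S : Set I} (h : Stat S) : ¬ S.Countable := by
  intro hc
  obtain ⟨b, hb⟩ := hI.bdd S hc
  obtain ⟨d, hd, ⟨b0, hb0⟩, h2⟩ := h (fun _ => b)
  exact lt_asymm (hb d hd) (h2 b0 hb0)

/-- A function with bounded fibres is injective on a stationary subset. -/
theorem Stat.inj {S : Set I} (h : Stat S) {A : Type} (a : I → A)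
    (ha : ∀ b, ∃ c, ∀ d, c < d → a d ≠ a b) :
    Stat {d | d ∈ S ∧ ∀ b, b < d → a d ≠ a b} := by
  choose g hg using ha
  refine (h.closed g).mono ?_
  rintro d ⟨hd, -, h2⟩
  exact ⟨hd, fun b hb => hg b d (h2 b hb)⟩

end Pool.Agent.P.MP_7b8a73_gt
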